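import Mathlib

namespace Pool.Agent.H.MP_037b14_pr

open Finset

/-- vertices: lane (`true` = fast lane `B`), height, index -/
structure V where
  lane : Bool
  ht : ℕ
  idx : ℕ
  hidx : idx < 2 ^ ht
  hev : lane = true → ht % 2 = 0

theorem V.ext' {u w : V} (h1 : u.lane = w.lane) (h2 : u.ht = w.ht) (h3 : u.idx = w.idx) : u = w := by
  cases u; cases w; simp_all

def st (b : Bool) : ℕ := if b then 2 else 1

def G : SimpleGraph V where
  Adj u w := (u.lane = w.lane ∧ (u.ht + st u.lane = w.ht ∨ w.ht + st u.lane = u.ht)) ∨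
    (u.lane ≠ w.lane ∧ u.ht = w.ht ∧ u.idx = w.idx)
  symm := ⟨by
    rintro u w (⟨h1, h2⟩ | ⟨h1, h2, h3⟩)
    · left; rw [← h1]; exact ⟨rfl, h2.symm⟩
    · right; exact ⟨h1.symm, h2.symm, h3.symm⟩⟩
  loopless := ⟨by
    rintro u (⟨_, h2⟩ | ⟨h1, _⟩)
    · unfold st at h2; split_ifs at h2 <;> omega
    · exact h1 rfl⟩

theorem adj_iff (u w : V) : G.Adj u w ↔
    (u.lane = w.lane ∧ (u.ht + st u.lane = w.ht ∨ w.ht + st u.lane = u.ht)) ∨
    (u.lane ≠ w.lane ∧ u.ht = w.ht ∧ u.idx = w.idx) := Iff.rfl

open Classical in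
noncomputable def lay (b : Bool) (H : ℕ) : Finset V :=
  if h : b = true → H % 2 = 0 then
    (univ : Finset (Fin (2 ^ H))).map ⟨fun i : Fin (2 ^ H) => (⟨b, H, i.1, i.2, h⟩ : V), by
      intro i j hij
      exact Fin.ext (by simpa using congrArg V.idx hij)⟩
  else ∅

theorem mem_lay (b : Bool) (H : ℕ) (w : V) : w ∈ lay b H ↔ w.lane = b ∧ w.ht = H := by
  unfold lay
  split_ifs with h
  · simp only [mem_map, mem_univ, true_and, Function.Embedding.coeFn_mk]
    constructor
    · rintro ⟨i, rfl⟩; exact ⟨rfl, rfl⟩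
    · rintro ⟨h1, h2⟩
      exact ⟨⟨w.idx, h2 ▸ w.hidx⟩, V.ext' h1.symm h2.symm rfl⟩
  · simp only [notMem_empty, false_iff]
    rintro ⟨h1, h2⟩
    exact h (h1 ▸ h2 ▸ w.hev)

theorem card_lay (b : Bool) (H : ℕ) (h : b = true → H % 2 = 0) : (lay b H).card = 2 ^ H := by
  unfold lay
  rw [dif_pos h]; simp

def up (u : V) : V := ⟨u.lane, u.ht + st u.lane, 0, by positivity, by
  intro h; have := u.hev h; simp [st, h]; omega⟩

def down (u : V) : V := ⟨u.lane, u.ht - st u.lane, 0, by positivity, by
  intro h; have := u.hev h; simp [st, h]; omega⟩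

def link (u : V) : V := if h : u.ht % 2 = 0 then ⟨!u.lane, u.ht, u.idx, u.hidx, fun _ => h⟩ else u

theorem link_spec (u : V) (h : u.ht % 2 = 0) :
    (link u).lane = !u.lane ∧ (link u).ht = u.ht ∧ (link u).idx = u.idx := by
  unfold link; rw [dif_pos h]; exact ⟨rfl, rfl, rfl⟩

theorem adj_up (u : V) : G.Adj u (up u) := Or.inl ⟨rfl, Or.inl rfl⟩

theorem adj_down (u : V) (h : st u.lane ≤ u.ht) : G.Adj u (down u) :=
  Or.inl ⟨rfl, Or.inr (by simp only [down]; omega)⟩

theorem adj_link (u : V) (h : u.ht % 2 = 0) : G.Adj u (link u) := by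
  obtain ⟨h1, h2, h3⟩ := link_spec u h
  right
  rw [h1, h2, h3]
  simp

open Classical in
noncomputable def nb (u : V) : Finset V :=
  (lay u.lane (u.ht + st u.lane) ∪ (if st u.lane ≤ u.ht then lay u.lane (u.ht - st u.lane) else ∅)) ∪
    (if u.ht % 2 = 0 then {link u} else ∅)

theorem mem_nb (u w : V) : w ∈ nb u ↔ G.Adj u w := by
  classical
  unfold nb
  rw [adj_iff]
  simp only [mem_union, mem_lay]
  constructor
  · rintro ((⟨h1, h2⟩ | h) | h)
    · exact Or.inl ⟨h1.symm, Or.inl h2.symm⟩
    · split_ifs at h with hc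
      · rw [mem_lay] at h
        exact Or.inl ⟨h.1.symm, Or.inr (by omega)⟩
      · simp at h
    · split_ifs at h with hc
      · rw [mem_singleton] at h
        rw [h]; exact adj_link u hc
      · simp at h
  · rintro (⟨h1, h2 | h2⟩ | ⟨h1, h2, h3⟩)
    · exact Or.inl (Or.inl ⟨h1.symm, h2.symm⟩)
    · left; right
      rw [if_pos (by omega), mem_lay]
      exact ⟨h1.symm, by omega⟩
    · right
      have hev : u.ht % 2 = 0 := by
        cases hb : u.lane
        · rw [h2]; apply w.hev
          cases hw : w.lane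
          · rw [hb, hw] at h1; exact absurd rfl h1
          · rfl
        · exact u.hev hb
      rw [if_pos hev, mem_singleton]
      obtain ⟨g1, g2, g3⟩ := link_spec u hev
      refine V.ext' ?_ (by omega) (by omega)
      rw [g1]
      cases hb : u.lane <;> cases hw : w.lane <;> simp_all

noncomputable instance instLF : G.LocallyFinite := fun u =>
  Fintype.ofFinset (nb u) (fun w => by rw [mem_nb]; rfl)

theorem nf_eq (u : V) : G.neighborFinset u = nb u := by
  ext w; rw [SimpleGraph.mem_neighborFinset, mem_nb]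

def nup (u : V) : ℕ := 2 ^ (u.ht + st u.lane)
def ndown (u : V) : ℕ := if st u.lane ≤ u.ht then 2 ^ (u.ht - st u.lane) else 0
def nlink (u : V) : ℕ := if u.ht % 2 = 0 then 1 else 0

theorem sum_nb (u : V) (f : V → ℝ) : ∑ w ∈ nb u, f w =
    ∑ w ∈ lay u.lane (u.ht + st u.lane), f w +
    (if st u.lane ≤ u.ht then ∑ w ∈ lay u.lane (u.ht - st u.lane), f w else 0) +
    (if u.ht % 2 = 0 then f (link u) else 0) := by
  classical
  have hst : 1 ≤ st u.lane := by unfold st; split_ifs <;> omega
  unfold nb
  rw [sum_union, sum_union]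
  · congr 1
    · congr 1
      split_ifs <;> simp
    · split_ifs <;> simp
  · rw [disjoint_left]
    intro w h1 h2
    split_ifs at h2 with hc
    · rw [mem_lay] at h1 h2; omega
    · simp at h2
  · rw [disjoint_left]
    intro w h1 h2
    by_cases hev : u.ht % 2 = 0
    · rw [if_pos hev, mem_singleton] at h2
      have h3 := (link_spec u hev).2.1
      rw [← h2] at h3
      rw [mem_union] at h1
      rcases h1 with h1 | h1
      · rw [mem_lay] at h1; omega
      · split_ifs at h1 with hc
        · rw [mem_lay] at h1; omega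
        · simp at h1
    · rw [if_neg hev] at h2; simp at h2

theorem card_up (u : V) : (lay u.lane (u.ht + st u.lane)).card = nup u :=
  card_lay _ _ (up u).hev

theorem card_down (u : V) : (lay u.lane (u.ht - st u.lane)).card = 2 ^ (u.ht - st u.lane) :=
  card_lay _ _ (down u).hev

theorem deg_eq (u : V) : (G.degree u : ℝ) = nup u + ndown u + nlink u := by
  have := sum_nb u (fun _ => 1)
  rw [← nf_eq] at this
  simp only [sum_const, SimpleGraph.card_neighborFinset_eq_degree, nsmul_eq_mul, mul_one,
    card_up, card_down] at this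
  rw [this]
  unfold ndown nlink
  split_ifs <;> simp

theorem sum_le (u : V) (f : V → ℝ) (a b l : ℝ)
    (h1 : ∀ w : V, w.lane = u.lane → w.ht = u.ht + st u.lane → f w ≤ a)
    (h2 : ∀ w : V, w.lane = u.lane → w.ht + st u.lane = u.ht → f w ≤ b)
    (h3 : ∀ w : V, w.lane = !u.lane → w.ht = u.ht → f w ≤ l) :
    ∑ w ∈ G.neighborFinset u, f w ≤ nup u * a + ndown u * b + nlink u * l := by
  rw [nf_eq, sum_nb]
  have g1 : ∑ w ∈ lay u.lane (u.ht + st u.lane), f w ≤ nup u * a := by
    rw [← card_up, ← nsmul_eq_mul]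
    apply sum_le_card_nsmul
    intro w hw
    rw [mem_lay] at hw
    exact h1 w hw.1 hw.2
  have g2 : (if st u.lane ≤ u.ht then ∑ w ∈ lay u.lane (u.ht - st u.lane), f w else 0)
      ≤ ndown u * b := by
    unfold ndown
    split_ifs with hc
    · rw [← card_down, ← nsmul_eq_mul]
      apply sum_le_card_nsmul
      intro w hw
      rw [mem_lay] at hw
      exact h2 w hw.1 (by omega)
    · simp
  have g3 : (if u.ht % 2 = 0 then f (link u) else 0) ≤ nlink u * l := by
    unfold nlink
    split_ifs with hc
    · have := link_spec u hc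
      simpa using h3 _ this.1 this.2.1
    · simp
  linarith

def root : V := ⟨false, 0, 0, by norm_num, by simp⟩

theorem reachA (H : ℕ) : ∀ u : V, u.lane = false → u.ht = H → G.Reachable u root := by
  induction H with
  | zero =>
    intro u h1 h2
    have := u.hidx
    rw [h2] at this
    rw [V.ext' (w := root) h1 h2 (by simp [root]; omega)]
  | succ H ih =>
    intro u h1 h2
    have h3 : st u.lane = 1 := by simp [st, h1]
    exact (adj_down u (by omega)).reachable.trans (ih _ h1 (by simp only [down]; omega))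

theorem conn : G.Connected := by
  haveI : Nonempty V := ⟨root⟩
  have key : ∀ u : V, G.Reachable u root := by
    intro u
    cases hb : u.lane
    · exact reachA _ u hb rfl
    · have hev := u.hev hb
      exact (adj_link u hev).reachable.trans
        (reachA _ _ (by rw [(link_spec u hev).1, hb]; rfl) rfl)
  exact ⟨fun u w => (key u).trans (key w).symm⟩

theorem dist_lower (h : V → ℕ) (hl : ∀ u w, G.Adj u w → h u ≤ h w + 1) (v : V) (hv : h v = 0)
    (u : V) : h u ≤ G.dist u v := by
  obtain ⟨p, hp⟩ := conn.exists_walk_length_eq_dist u v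
  rw [← hp]
  clear hp
  induction p with
  | nil => simp [hv]
  | cons hadj p ih =>
    have := hl _ _ hadj
    have := ih hv
    simp only [SimpleGraph.Walk.length_cons]
    omega

theorem dist_adj {u w : V} (v : V) (h : G.Adj u w) : G.dist u v ≤ G.dist w v + 1 := by
  have h1 := conn.dist_triangle (u := u) (v := w) (w := v)
  have h2 : G.dist u w = 1 := SimpleGraph.dist_eq_one_iff_adj.2 h
  omega

theorem dist_BB (k : ℕ) : ∀ u v : V, u.lane = true → v.lane = true → u.ht = v.ht + 2 * (k + 1) →
    G.dist u v ≤ k + 1 := by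
  induction k with
  | zero =>
    intro u v h1 h2 h3
    have : G.Adj u v := Or.inl ⟨by rw [h1, h2], Or.inr (by simp [st, h1]; omega)⟩
    rw [SimpleGraph.dist_eq_one_iff_adj.2 this]
  | succ k ih =>
    intro u v h1 h2 h3
    have h4 : st u.lane = 2 := by simp [st, h1]
    have := dist_adj v (adj_down u (by omega))
    have := ih (down u) v h1 h2 (by simp only [down]; omega)
    omega

theorem link_far (u v : V) (h1 : u.lane = true) (h2 : v.ht + 6 ≤ u.ht) (w : V)
    (h3 : w.lane = false) (h4 : w.ht = u.ht) : G.dist u v < G.dist w v := by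
  have hu := u.hev h1
  cases hb : v.lane
  · have lo := dist_lower (fun x => if x.lane then (x.ht - v.ht + 1) / 2 + 1
        else min (x.ht - v.ht) ((x.ht - v.ht + 1) / 2 + 2)) (by
      intro x y hxy
      rw [adj_iff] at hxy
      cases hx : x.lane <;> cases hy : y.lane <;> simp [hx, hy, st] at hxy ⊢ <;> omega) v
      (by simp [hb]) w
    simp only [h3] at lo
    have hi : G.dist u v ≤ (u.ht - v.ht + 1) / 2 + 1 := by
      rcases Nat.mod_two_eq_zero_or_one v.ht with he | he
      · have s1 := link_spec v he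
        have s2 := dist_BB ((u.ht - v.ht) / 2 - 1) u (link v) h1 (by rw [s1.1, hb]; rfl) (by omega)
        have s3 := conn.dist_triangle (u := u) (v := link v) (w := v)
        have s4 : G.dist (link v) v = 1 := SimpleGraph.dist_eq_one_iff_adj.2 (adj_link v he).symm
        omega
      · have t0 : (up v).ht = v.ht + 1 := by simp [up, st, hb]
        have s1 := link_spec (up v) (by omega)
        have s2 := dist_BB ((u.ht - v.ht - 1) / 2 - 1) u (link (up v)) h1
          (by rw [s1.1]; simp [up, hb]) (by omega)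
        have s3 := conn.dist_triangle (u := u) (v := link (up v)) (w := v)
        have s4 := dist_adj v (adj_link (up v) (by omega)).symm
        have s5 : G.dist (up v) v = 1 := SimpleGraph.dist_eq_one_iff_adj.2 (adj_up v).symm
        omega
    simp at lo
    omega
  · have hv := v.hev hb
    have lo := dist_lower (fun x => if x.lane then (x.ht - v.ht) / 2
        else (x.ht - v.ht + 1) / 2 + 1) (by
      intro x y hxy
      have hx' := x.hev
      have hy' := y.hev
      rw [adj_iff] at hxy
      cases hx : x.lane <;> cases hy : y.lane <;> simp [hx, hy, st] at hxy hx' hy' ⊢ <;> omega) v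
      (by simp [hb]) w
    simp only [h3] at lo
    have := dist_BB ((u.ht - v.ht) / 2 - 1) u v h1 hb (by omega)
    simp at lo
    omega

end Pool.Agent.H.MP_037b14_pr
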