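import Pool.Agent.H.MP_037b14_pr.A

namespace Pool.Agent.H.MP_037b14_pr

open Finset Filter Topology

noncomputable def avg (u : V) (f : V → ℝ) : ℝ := (∑ w ∈ G.neighborFinset u, f w) / G.degree u

noncomputable def step (cs rs : ℕ → V → V → V) (F : V → V → ℝ) (s : ℕ) (u v : V) : ℝ :=
  459 / 1000 * F (cs s u v) v + 1 / 1000 * F u (rs s u v) +
    539 / 1000 * avg u (fun w => F w v) + 1 / 1000 * avg v (fun w => F u w)

theorem deg_pos (u : V) : (0 : ℝ) < G.degree u := by
  have : 0 < G.degree u := (adj_up u).degree_pos_left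
  exact_mod_cast this

theorem avg_mono (u : V) {f g : V → ℝ} (h : ∀ w, G.Adj u w → f w ≤ g w) : avg u f ≤ avg u g := by
  unfold avg
  apply div_le_div_of_nonneg_right _ (deg_pos u).le
  exact sum_le_sum fun w hw => h w ((SimpleGraph.mem_neighborFinset _ _ _).1 hw)

theorem avg_const (u : V) (a : ℝ) : avg u (fun _ => a) = a := by
  unfold avg
  have := deg_pos u
  simp only [sum_const, SimpleGraph.card_neighborFinset_eq_degree, nsmul_eq_mul]
  field_simp

theorem avg_lin (u : V) (a b : ℝ) (f : V → ℝ) : avg u (fun w => a + b * f w) = a + b * avg u f := by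
  unfold avg
  have := deg_pos u
  simp only [sum_add_distrib, sum_const, SimpleGraph.card_neighborFinset_eq_degree, nsmul_eq_mul,
    ← mul_sum]
  field_simp

theorem avg_sum (u : V) (K : ℕ) (f : ℕ → V → ℝ) :
    avg u (fun w => ∑ k ∈ range K, f k w) = ∑ k ∈ range K, avg u (f k) := by
  unfold avg
  rw [sum_comm, sum_div]

theorem step_mono (cs rs : ℕ → V → V → V) {F F' : V → V → ℝ} (h : ∀ u v, F u v ≤ F' u v)
    (s : ℕ) (u v : V) : step cs rs F s u v ≤ step cs rs F' s u v := by
  unfold step
  have h1 := h (cs s u v) v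
  have h2 := h u (rs s u v)
  have h3 := avg_mono u (f := fun w => F w v) (g := fun w => F' w v) (fun w _ => h w v)
  have h4 := avg_mono v (f := fun w => F u w) (g := fun w => F' u w) (fun w _ => h u w)
  linarith

theorem step_lin (cs rs : ℕ → V → V → V) (a b : ℝ) (F : V → V → ℝ) (s : ℕ) (u v : V) :
    step cs rs (fun x y => a + b * F x y) s u v = a + b * step cs rs F s u v := by
  unfold step
  rw [avg_lin, avg_lin]
  ring

theorem step_sum (cs rs : ℕ → V → V → V) (K : ℕ) (F : ℕ → V → V → ℝ) (s : ℕ) (u v : V) :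
    step cs rs (fun x y => ∑ k ∈ range K, F k x y) s u v
      = ∑ k ∈ range K, step cs rs (F k) s u v := by
  unfold step
  rw [avg_sum, avg_sum]
  simp only [sum_add_distrib, mul_sum]

open Classical in
structure IsSurv (cs rs : ℕ → V → V → V) (S : ℕ → ℕ → V → V → ℝ) : Prop where
  zero : ∀ s u v, S 0 s u v = if u = v then 0 else 1
  succ : ∀ k s u v, S (k + 1) s u v = if u = v then 0 else step cs rs (S k (s + 1)) s u v

theorem IsSurv.nonneg {cs rs S} (h : IsSurv cs rs S) (k : ℕ) : ∀ s u v, 0 ≤ S k s u v := by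
  induction k with
  | zero => intro s u v; rw [h.zero]; split_ifs <;> norm_num
  | succ k ih =>
    intro s u v
    rw [h.succ]
    split_ifs
    · exact le_rfl
    · have := step_mono cs rs (F := fun x y => 0 + 0 * S k s x y) (F' := S k (s + 1))
        (fun x y => by simpa using ih (s + 1) x y) s u v
      rw [step_lin] at this
      simpa using this

theorem IsSurv.win {cs rs S} (h : IsSurv cs rs S) (φ : V → V → ℝ) (h0 : ∀ u v, 0 ≤ φ u v)
    (h1 : ∀ s u v, u ≠ v → step cs rs φ s u v ≤ φ u v - 1 / 4) (u v : V) :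
    Tendsto (fun k => S k 0 u v) atTop (𝓝 0) := by
  have key : ∀ K s u v, ∑ k ∈ range K, S k s u v ≤ 0 + 4 * φ u v := by
    intro K
    induction K with
    | zero => intro s u v; have := h0 u v; simp; linarith
    | succ K ih =>
      intro s u v
      rw [sum_range_succ']
      by_cases huv : u = v
      · simp only [h.succ, h.zero, if_pos huv]
        have := h0 u v
        simp; linarith
      · simp only [h.succ, h.zero, if_neg huv]
        rw [← step_sum cs rs K (fun k => S k (s + 1))]
        have h2 := step_mono cs rs (ih (s + 1)) s u v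
        rw [step_lin] at h2
        have := h1 s u v huv
        linarith
  exact (summable_of_sum_range_le (fun k => h.nonneg k 0 u v)
    (fun K => key K 0 u v)).tendsto_atTop_zero

theorem IsSurv.lose {cs rs S} (h : IsSurv cs rs S) (g : V → V → ℝ) (h0 : ∀ u, 1 ≤ g u u)
    (h2 : ∀ u v, 0 ≤ g u v)
    (h1 : ∀ s u v, 1 ≤ g u v ∨ step cs rs g s u v ≤ g u v) (k : ℕ) :
    ∀ s u v, 1 + (-1) * g u v ≤ S k s u v := by
  induction k with
  | zero =>
    intro s u v
    rw [h.zero]
    split_ifs with hc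
    · rw [hc]; have := h0 v; linarith
    · have := h2 u v; linarith
  | succ k ih =>
    intro s u v
    rcases h1 s u v with h3 | h3
    · have := h.nonneg (k + 1) s u v; linarith
    · rw [h.succ]
      split_ifs with hc
      · rw [hc]; have := h0 v; linarith
      · have h4 := step_mono cs rs (ih (s + 1)) s u v
        rw [step_lin] at h4
        linarith

/-! ### the losing side -/

noncomputable def mu : ℝ := 124 / 125

noncomputable def gg (u v : V) : ℝ := if u.lane then 2000 * mu ^ u.ht / mu ^ v.ht else 1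

theorem mu_pos : 0 < mu := by unfold mu; norm_num

theorem mu_le : mu ≤ 1 := by unfold mu; norm_num

theorem gg_nonneg (u v : V) : 0 ≤ gg u v := by
  unfold gg
  have := mu_pos
  split_ifs <;> positivity

theorem gg_near (u v : V) (h : u.ht ≤ v.ht + 5) : 1 ≤ gg u v := by
  unfold gg
  have := mu_pos
  split_ifs
  · rw [le_div_iff₀ (by positivity)]
    have h1 : mu ^ (v.ht + 5) ≤ mu ^ u.ht := pow_le_pow_of_le_one this.le mu_le h
    have h2 : (1 : ℝ) / 2000 ≤ mu ^ 5 := by unfold mu; norm_num
    rw [pow_add] at h1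
    have h3 : 0 < mu ^ v.ht := by positivity
    nlinarith
  · exact le_rfl

theorem gg_rob (u v w : V) (h1 : u.lane = true) (h : G.Adj v w) : gg u w ≤ gg u v / mu ^ 2 := by
  have h2 : w.ht ≤ v.ht + 2 := by
    rw [adj_iff] at h
    unfold st at h
    split_ifs at h <;> omega
  unfold gg
  simp only [h1, if_true]
  have := mu_pos
  rw [div_div, ← pow_add]
  apply div_le_div_of_nonneg_left (by positivity) (by positivity)
  exact pow_le_pow_of_le_one this.le mu_le h2

theorem gg_cop (u v w : V) (h1 : u.lane = true) (h3 : w.lane = true) (h : u.ht ≤ w.ht + 2) :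
    gg w v ≤ gg u v / mu ^ 2 := by
  unfold gg
  simp only [h1, h3, if_true]
  have := mu_pos
  rw [div_div, mul_comm (mu ^ v.ht), ← div_div]
  apply div_le_div_of_nonneg_right _ (by positivity)
  rw [le_div_iff₀ (by positivity), mul_assoc, ← pow_add]
  have := pow_le_pow_of_le_one this.le mu_le h
  linarith

theorem lose_step (cs rs : ℕ → V → V → V) (hc : ∀ s u v, cs s u v = u ∨ G.Adj u (cs s u v))
    (hm : ∀ s u v, G.dist (cs s u v) v ≤ G.dist u v) (hr : ∀ s u v, G.Adj v (rs s u v))
    (s : ℕ) (u v : V) : 1 ≤ gg u v ∨ step cs rs gg s u v ≤ gg u v := by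
  cases hb : u.lane
  · left; simp [gg, hb]
  rcases Nat.lt_or_ge u.ht (v.ht + 6) with hn | hn
  · left; exact gg_near u v (by omega)
  right
  have hmu := mu_pos
  have hst : st u.lane = 2 := by simp [st, hb]
  have e1 : gg (cs s u v) v ≤ gg u v / mu ^ 2 := by
    rcases hc s u v with h | h
    · rw [h]; exact gg_cop u v u hb hb (by omega)
    · rw [adj_iff] at h
      rcases h with ⟨h1, h2⟩ | ⟨h1, h2, _⟩
      · exact gg_cop u v _ hb (by rw [← h1, hb]) (by omega)
      · have := link_far u v hb hn (cs s u v) (by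
          rw [hb] at h1
          cases hw : (cs s u v).lane
          · rfl
          · exact absurd hw.symm h1) h2.symm
        have := hm s u v
        omega
  have e2 := gg_rob u v _ hb (hr s u v)
  have e3 : avg v (fun w => gg u w) ≤ gg u v / mu ^ 2 := by
    rw [← avg_const v (gg u v / mu ^ 2)]
    exact avg_mono v (fun w hw => gg_rob u v w hb hw)
  obtain ⟨n, hn'⟩ : ∃ n, u.ht = n + 2 := ⟨u.ht - 2, by omega⟩
  have e4 := sum_le u (fun w => gg w v) (gg u v * mu ^ 2) (gg u v / mu ^ 2) 1
    (by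
      intro w h1 h2
      unfold gg
      rw [h1, h2, hst, hb]
      simp only [if_true]
      rw [pow_add]
      apply le_of_eq; ring)
    (fun w h1 h2 => gg_cop u v w hb (by rw [h1, hb]) (by omega))
    (by
      intro w h1 _
      simp [gg, h1, hb])
  have d1 : (nup u : ℝ) = 16 * 2 ^ n := by
    unfold nup; rw [hst, hn']; push_cast; ring
  have d2 : (ndown u : ℝ) = 2 ^ n := by
    unfold ndown; rw [hst, hn', if_pos (by omega)]; simp
  have d3 : (nlink u : ℝ) = 1 := by
    unfold nlink; rw [if_pos (u.hev hb)]; simp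
  have e5 : 1 ≤ gg u v * 2 ^ n / 1900 := by
    unfold gg
    simp only [hb, if_true]
    have g1 : mu ^ v.ht ≤ 1 := pow_le_one₀ hmu.le mu_le
    have g2 : 1 ≤ (mu * 2) ^ n := one_le_pow₀ (by unfold mu; norm_num)
    have g3 : 2000 * mu ^ u.ht ≤ 2000 * mu ^ u.ht / mu ^ v.ht := by
      rw [le_div_iff₀ (by positivity)]
      have : 0 < 2000 * mu ^ u.ht := by positivity
      nlinarith
    have g4 : mu ^ u.ht * 2 ^ n = mu ^ 2 * (mu * 2) ^ n := by rw [hn', mul_pow]; ring
    have g5 : (1900 : ℝ) / 2000 ≤ mu ^ 2 := by unfold mu; norm_num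
    have g6 : (0 : ℝ) < 2 ^ n := by positivity
    have g7 := mul_le_mul_of_nonneg_right g3 g6.le
    rw [le_div_iff₀ (by norm_num)]
    nlinarith
  have e6 : avg u (fun w => gg w v) ≤ gg u v * ((16 * mu ^ 2 + 1 / mu ^ 2 + 1 / 1900) / 17) := by
    unfold avg
    rw [div_le_iff₀ (deg_pos u), deg_eq, d1, d2, d3]
    rw [d1, d2, d3] at e4
    have g0 := gg_nonneg u v
    have g6 : (0 : ℝ) < 2 ^ n := by positivity
    have g8 : 0 ≤ gg u v * ((16 * mu ^ 2 + 1 / mu ^ 2 + 1 / 1900) / 17) := by positivity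
    have g9 : gg u v * ((16 * mu ^ 2 + 1 / mu ^ 2 + 1 / 1900) / 17) * (16 * 2 ^ n + 2 ^ n + 1) =
      16 * 2 ^ n * (gg u v * mu ^ 2) + 2 ^ n * (gg u v / mu ^ 2) + gg u v * 2 ^ n / 1900 +
        gg u v * ((16 * mu ^ 2 + 1 / mu ^ 2 + 1 / 1900) / 17) := by ring
    linarith
  unfold step
  have g0 := gg_nonneg u v
  unfold mu at e1 e2 e3 e6
  norm_num at e1 e2 e3 e6
  linarith

end Pool.Agent.H.MP_037b14_pr
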