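import Pool.Agent.H.MP_037b14_pr.B

namespace Pool.Agent.H.MP_037b14_pr

open Finset Filter Topology

def bA (D : ℤ) : ℤ := if 1 ≤ D then 10 * (D - 1) else if D = 0 then 10 else 10 * (-D - 1)
def eB (D : ℤ) : ℤ := if 2 ≤ D then 15 + 10 * (D - 2) else 15 + 10 * (2 - D)
def bB (D : ℤ) : ℤ := if 4 ≤ D then 40 + 10 * (D - 2) else if 0 ≤ D then 10 * (2 - D) + 10
  else if -2 ≤ D then 10 * (D + 2) + 10 else 10 * (-D - 2) + 10

/-- cop lane, robber lane, height difference -/
def F : Bool → Bool → ℤ → ℤ
  | false, false, D => bA D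
  | true, false, D => bA D + 25
  | false, true, D => eB D + 10
  | true, true, D => if 4 ≤ D then bB D + 10 else bB D

def FF (u v : V) : ℤ := F u.lane v.lane ((u.ht : ℤ) - v.ht)

theorem FF_nonneg (u v : V) : 0 ≤ FF u v := by
  unfold FF
  generalize (u.ht : ℤ) - v.ht = D
  cases u.lane <;> cases v.lane <;> simp only [F, bA, eB, bB] <;> split_ifs <;> omega

theorem FF_rob (u v w : V) (h : G.Adj v w) : FF u w ≤ FF u v + 70 := by
  rw [adj_iff] at h
  have hu' := u.hev
  have hv' := v.hev
  have hw' := w.hev
  unfold FF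
  cases hu : u.lane <;> cases hv : v.lane <;> cases hw : w.lane <;>
    simp [hu, hv, hw, st] at h hu' hv' hw' <;> simp only [F, bA, eB, bB] <;> split_ifs <;> omega

theorem FF_cop (u v w : V) (h : G.Adj u w) : FF w v ≤ FF u v + 70 := by
  rw [adj_iff] at h
  have hu' := u.hev
  have hv' := v.hev
  have hw' := w.hev
  unfold FF
  cases hu : u.lane <;> cases hv : v.lane <;> cases hw : w.lane <;>
    simp [hu, hv, hw, st] at h hu' hv' hw' <;> simp only [F, bA, eB, bB] <;> split_ifs <;> omega

open Classical in
noncomputable def phi (u v : V) : ℝ := if u = v then 0 else 100 + FF u v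

theorem phi_le (u v : V) : phi u v ≤ 100 + FF u v := by
  unfold phi
  split_ifs
  · have : (0 : ℝ) ≤ FF u v := by exact_mod_cast FF_nonneg u v
    linarith
  · exact le_rfl

theorem phi_nonneg (u v : V) : 0 ≤ phi u v := by
  unfold phi
  split_ifs
  · exact le_rfl
  · have : (0 : ℝ) ≤ FF u v := by exact_mod_cast FF_nonneg u v
    linarith

theorem phi_le' {u v w x : V} {a : ℤ} (h : FF w x ≤ FF u v + a) : phi w x ≤ 100 + FF u v + a := by
  have := phi_le w x
  have h' : (FF w x : ℝ) ≤ FF u v + a := by exact_mod_cast h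
  linarith

open Classical in
noncomputable def cop (u v : V) : V :=
  if G.Adj u v then v else
  if u.lane then (if v.lane ∧ u.ht ≤ v.ht + 2 then up u else link u)
  else if v.lane then (if v.ht + 3 ≤ u.ht then down u else if u.ht = v.ht + 2 then link u else up u)
  else (if v.ht + 2 ≤ u.ht then down u else up u)

theorem cop_adj (u v : V) : G.Adj u (cop u v) := by
  unfold cop
  split_ifs with h1 h2 h3 h4 h5 h6 h7
  · exact h1
  · exact adj_up u
  · exact adj_link u (u.hev h2)
  · exact adj_down u (by simp [st, h2]; omega)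
  · exact adj_link u (by have := v.hev h4; omega)
  · exact adj_up u
  · exact adj_down u (by simp [st, h2]; omega)
  · exact adj_up u

theorem avg_le (u v : V) (a b l : ℤ) (M : ℝ)
    (h1 : F u.lane v.lane ((u.ht : ℤ) + st u.lane - v.ht) ≤ FF u v + a)
    (h2 : F u.lane v.lane ((u.ht : ℤ) - st u.lane - v.ht) ≤ FF u v + b)
    (h3 : u.ht % 2 = 0 → F (!u.lane) v.lane ((u.ht : ℤ) - v.ht) ≤ FF u v + l)
    (h4 : (nup u : ℝ) * a + ndown u * b + nlink u * l ≤ M * (nup u + ndown u + nlink u)) :
    avg u (fun w => phi w v) ≤ 100 + FF u v + M := by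
  have e4 := sum_le u (fun w => phi w v) (100 + FF u v + a) (100 + FF u v + b) (100 + FF u v + l)
    (by
      intro w g1 g2
      apply phi_le'
      unfold FF at *
      rw [g1, g2]; push_cast; exact h1)
    (by
      intro w g1 g2
      apply phi_le'
      unfold FF at *
      rw [g1, show (w.ht : ℤ) = u.ht - st u.lane by omega]; exact h2)
    (by
      intro w g1 g2
      apply phi_le'
      unfold FF at *
      rw [g1, g2]
      apply h3
      cases hb : u.lane
      · rw [← g2]; apply w.hev; rw [g1, hb]; rfl
      · exact u.hev hb)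
  unfold avg
  rw [div_le_iff₀ (deg_pos u), deg_eq]
  linarith

theorem countsA (u : V) (hb : u.lane = false) : ∃ x l : ℝ, (nup u : ℝ) = 4 * x ∧
    ((ndown u : ℝ) = x ∨ (ndown u = 0 ∧ u.ht = 0)) ∧ (nlink u : ℝ) = l ∧ 1 / 2 ≤ x ∧
    (l = 0 ∨ (l = 1 ∧ (2 ≤ u.ht → 2 ≤ x))) := by
  have hst : st u.lane = 1 := by simp [st, hb]
  refine ⟨2 ^ u.ht / 2, nlink u, ?_, ?_, rfl, ?_, ?_⟩
  · unfold nup; rw [hst]; push_cast; ring
  · unfold ndown
    rw [hst]
    split_ifs with h
    · left
      obtain ⟨n, hn⟩ : ∃ n, u.ht = n + 1 := ⟨u.ht - 1, by omega⟩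
      rw [hn]; simp; ring
    · right; exact ⟨rfl, by omega⟩
  · have : (1 : ℝ) ≤ 2 ^ u.ht := one_le_pow₀ (by norm_num)
    linarith
  · unfold nlink
    split_ifs
    · right
      refine ⟨by simp, fun h => ?_⟩
      have : (2 : ℝ) ^ 2 ≤ 2 ^ u.ht := pow_le_pow_right₀ (by norm_num) h
      linarith
    · left; simp

theorem countsB (u : V) (hb : u.lane = true) : ∃ x : ℝ, (nup u : ℝ) = 16 * x ∧
    (((ndown u : ℝ) = x ∧ 1 ≤ x) ∨ ndown u = 0) ∧ (nlink u : ℝ) = 1 ∧ 1 / 4 ≤ x := by
  have hst : st u.lane = 2 := by simp [st, hb]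
  refine ⟨2 ^ u.ht / 4, ?_, ?_, ?_, ?_⟩
  · unfold nup; rw [hst]; push_cast; ring
  · unfold ndown
    rw [hst]
    split_ifs with h
    · left
      obtain ⟨n, hn⟩ : ∃ n, u.ht = n + 2 := ⟨u.ht - 2, by omega⟩
      have : (1 : ℝ) ≤ 2 ^ n := one_le_pow₀ (by norm_num)
      rw [hn, pow_add]
      constructor
      · simp; ring
      · linarith
    · right; rfl
  · unfold nlink; rw [if_pos (u.hev hb)]; simp
  · have : (1 : ℝ) ≤ 2 ^ u.ht := one_le_pow₀ (by norm_num)
    linarith

theorem cop_drift (u v : V) :
    459 / 1000 * phi (cop u v) v + 539 / 1000 * avg u (fun w => phi w v)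
      ≤ 998 / 1000 * (100 + FF u v) - 2 / 5 := by
  have h0 : (0 : ℝ) ≤ FF u v := by exact_mod_cast FF_nonneg u v
  by_cases hadj : G.Adj u v
  · have h1 : cop u v = v := by unfold cop; rw [if_pos hadj]
    have h2 : phi v v = 0 := by simp [phi]
    have h3 : avg u (fun w => phi w v) ≤ 100 + FF u v + (70 : ℤ) := by
      rw [← avg_const u (100 + FF u v + (70 : ℤ))]
      exact avg_mono u (fun w hw => phi_le' (FF_cop u v w hw))
    rw [h1, h2]
    push_cast at h3
    linarith
  have hadj' := hadj
  rw [adj_iff] at hadj'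
  have hu := u.hev
  have hv := v.hev
  cases hb : u.lane
  · obtain ⟨x, l, c1, c2, c3, c4, c5⟩ := countsA u hb
    have hst : st u.lane = 1 := by simp [st, hb]
    have hdown : 2 ≤ u.ht → FF (down u) v ≤ FF u v + (-10 : ℤ) →
        F false v.lane ((u.ht : ℤ) + 1 - v.ht) ≤ FF u v + 10 →
        F false v.lane ((u.ht : ℤ) - 1 - v.ht) ≤ FF u v + (-10) →
        (u.ht % 2 = 0 → F true v.lane ((u.ht : ℤ) - v.ht) ≤ FF u v + 25) →
        459 / 1000 * phi (down u) v + 539 / 1000 * avg u (fun w => phi w v)
          ≤ 998 / 1000 * (100 + FF u v) - 2 / 5 := by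
      intro g0 g1 g2 g3 g4
      have k1 := phi_le' g1
      have k2 := avg_le u v 10 (-10) 25 (85 / 11) (by rw [hb]; exact g2) (by rw [hb]; exact g3)
        (by rw [hb]; exact g4) (by
          rcases c2 with c2 | c2
          · rw [c1, c2, c3]
            rcases c5 with c5 | ⟨c5, c6⟩
            · rw [c5]; push_cast; linarith
            · have := c6 g0
              rw [c5]; push_cast; linarith
          · omega)
      push_cast at k1
      linarith
    have hup : FF (up u) v ≤ FF u v + (-10 : ℤ) →
        F false v.lane ((u.ht : ℤ) + 1 - v.ht) ≤ FF u v + (-10) →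
        F false v.lane ((u.ht : ℤ) - 1 - v.ht) ≤ FF u v + 10 →
        (u.ht % 2 = 0 → F true v.lane ((u.ht : ℤ) - v.ht) ≤ FF u v + 25) →
        459 / 1000 * phi (up u) v + 539 / 1000 * avg u (fun w => phi w v)
          ≤ 998 / 1000 * (100 + FF u v) - 2 / 5 := by
      intro g1 g2 g3 g4
      have k1 := phi_le' g1
      have k2 := avg_le u v (-10) 10 25 5 (by rw [hb]; exact g2) (by rw [hb]; exact g3)
        (by rw [hb]; exact g4) (by
          rcases c2 with c2 | ⟨c2, _⟩
          · rw [c1, c2, c3]
            rcases c5 with c5 | ⟨c5, c6⟩ <;> rw [c5] <;> push_cast <;> linarith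
          · rw [c1, c2, c3]
            rcases c5 with c5 | ⟨c5, c6⟩ <;> rw [c5] <;> push_cast <;> linarith)
      push_cast at k1
      linarith
    cases hw : v.lane
    · simp [hb, hw, st] at hadj'
      rw [hw] at hdown hup
      by_cases hc : v.ht + 2 ≤ u.ht
      · have h1 : cop u v = down u := by simp [cop, hadj, hb, hw, hc]
        rw [h1]
        apply hdown (by omega) <;>
          simp only [FF, down, hb, hw, st, F, bA, Bool.false_eq_true, if_false] <;>
          (try intro _) <;> split_ifs <;> omega
      · have h1 : cop u v = up u := by simp [cop, hadj, hb, hw, hc]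
        rw [h1]
        apply hup <;>
          simp only [FF, up, hb, hw, st, F, bA, Bool.false_eq_true, if_false] <;>
          (try intro _) <;> split_ifs <;> omega
    · have hv' := hv hw
      rw [hw] at hdown hup
      by_cases hc : v.ht + 3 ≤ u.ht
      · have h1 : cop u v = down u := by simp [cop, hadj, hb, hw, hc]
        rw [h1]
        apply hdown (by omega) <;>
          simp only [FF, down, hb, hw, st, F, eB, bB, Bool.false_eq_true, if_false] <;>
          (try intro _) <;> split_ifs <;> omega
      · by_cases hc2 : u.ht = v.ht + 2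
        · have h1 : cop u v = link u := by simp [cop, hadj, hb, hw, hc2]
          have s1 := link_spec u (by omega)
          have k0 : FF (link u) v ≤ FF u v + (-15 : ℤ) := by
            simp only [FF, s1.1, s1.2.1, hb, hw, F, eB, bB, Bool.not_false]
            split_ifs <;> omega
          have k1 := phi_le' k0
          have k2 := avg_le u v 10 10 10 10
            (by simp only [FF, hb, hw, st, F, eB, Bool.false_eq_true, if_false]
                split_ifs <;> omega)
            (by simp only [FF, hb, hw, st, F, eB, Bool.false_eq_true, if_false]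
                split_ifs <;> omega)
            (by simp only [FF, hb, hw, F, eB, bB, Bool.not_false]
                intro _
                split_ifs <;> omega)
            (by push_cast; linarith)
          rw [h1]
          push_cast at k1
          linarith
        · have h1 : cop u v = up u := by simp [cop, hadj, hb, hw, hc, hc2]
          rw [h1]
          apply hup <;>
            simp only [FF, up, hb, hw, st, F, eB, bB, Bool.false_eq_true, if_false] <;>
            (try intro _) <;> split_ifs <;> omega
  · obtain ⟨x, c1, c2, c3, c4⟩ := countsB u hb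
    have hu' := hu hb
    have s1 := link_spec u hu'
    by_cases hc : v.lane = true ∧ u.ht ≤ v.ht + 2
    · have h1 : cop u v = up u := by simp [cop, hadj, hb, hc]
      have hw := hc.1
      have hv' := hv hw
      have hc2 := hc.2
      simp [hb, hw, st] at hadj'
      have k0 : FF (up u) v ≤ FF u v + (-20 : ℤ) := by
        simp only [FF, up, hb, hw, st, F, bB, if_true]
        split_ifs <;> omega
      have k1 := phi_le' k0
      have k2 := avg_le u v (-20) 20 55 0
        (by simp only [FF, hb, hw, st, F, bB, if_true]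
            split_ifs <;> omega)
        (by simp only [FF, hb, hw, st, F, bB, if_true]
            split_ifs <;> omega)
        (by simp only [FF, hb, hw, F, eB, bB, Bool.not_true]
            intro _
            split_ifs <;> omega)
        (by
          rcases c2 with ⟨c2, c5⟩ | c2 <;> rw [c1, c2, c3] <;> push_cast <;> linarith)
      rw [h1]
      push_cast at k1
      linarith
    · have h1 : cop u v = link u := by
        unfold cop
        rw [if_neg hadj, if_pos hb, if_neg hc]
      have k0 : FF (link u) v ≤ FF u v + (-25 : ℤ) := by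
        cases hw : v.lane <;> simp [hw] at hc hv <;>
          simp only [FF, s1.1, s1.2.1, hb, hw, F, bA, eB, bB, Bool.not_true] <;>
          split_ifs <;> omega
      have k1 := phi_le' k0
      have k2 := avg_le u v 20 20 20 20
        (by cases hw : v.lane <;> simp [hw] at hc hv <;>
              simp only [FF, hb, hw, st, F, bA, bB, if_true] <;> split_ifs <;> omega)
        (by cases hw : v.lane <;> simp [hw] at hc hv <;>
              simp only [FF, hb, hw, st, F, bA, bB, if_true] <;> split_ifs <;> omega)
        (by intro _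
            cases hw : v.lane <;> simp [hw] at hc hv <;>
              simp only [FF, hb, hw, F, bA, eB, bB, Bool.not_true] <;> split_ifs <;> omega)
        (by push_cast; linarith)
      rw [h1]
      push_cast at k1
      linarith

theorem win_step (rs : ℕ → V → V → V) (hr : ∀ s u v, G.Adj v (rs s u v)) (s : ℕ) (u v : V)
    (huv : u ≠ v) : step (fun _ => cop) rs phi s u v ≤ phi u v - 1 / 4 := by
  have h1 := cop_drift u v
  have h2 := phi_le' (FF_rob u v _ (hr s u v))
  have h3 : avg v (fun w => phi u w) ≤ 100 + FF u v + (70 : ℤ) := by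
    rw [← avg_const v (100 + FF u v + (70 : ℤ))]
    exact avg_mono v (fun w hw => phi_le' (FF_rob u v w hw))
  have h4 : phi u v = 100 + FF u v := by simp [phi, huv]
  unfold step
  push_cast at h2 h3
  linarith

def start : V := ⟨true, 2000, 0, by positivity, by simp⟩

theorem gg_start : gg start root < 1 := by
  unfold gg start root mu
  simp only [if_true, pow_zero, div_one]
  have h1 : (124 / 125 : ℝ) ^ 100 ≤ 1 / 2 := by norm_num
  have h2 : (124 / 125 : ℝ) ^ 2000 = ((124 / 125) ^ 100) ^ 20 := by rw [← pow_mul]
  have h3 : ((124 / 125 : ℝ) ^ 100) ^ 20 ≤ (1 / 2) ^ 20 := pow_le_pow_left₀ (by positivity) h1 20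
  rw [h2]
  have h4 : (1 / 2 : ℝ) ^ 20 < 1 / 2000 := by norm_num
  linarith

end Pool.Agent.H.MP_037b14_pr
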